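import Mathlib
import Pool.Agent.Lib.MP_59be9f_co.Graph

set_option autoImplicit false

namespace Pool.Agent.Results.MP_59be9f_co.LogLogClasses

/-- For every `d` there is `D` such that every finite `C4`-free strongly neighbourhood-regular
graph with minimum degree at least `D` whose number `r` of classes is at least
`(d - 3) log₂ log₂ Δ` (natural subtraction; no condition at all when `d ≤ 3`) has a nonempty
induced subgraph with minimum degree above `d` and no 6-cycle. -/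
theorem result :
  ∀ d : ℕ, ∃ D : ℕ, ∀ (V : Type) [Fintype V] [DecidableEq V] [Nonempty V]
    (G : SimpleGraph V) [DecidableRel G.Adj] (A : Finset V) (r : ℕ) (f : V → Fin r),
    (∀ u v : V, G.Adj u v → (u ∈ A ↔ v ∉ A)) →
    (∀ a ∈ A, ∀ i : Fin r, ∃! b : V, b ∉ A ∧ f b = i ∧ G.Adj a b) →
    (∀ b c : V, b ∉ A → c ∉ A → f b = f c → G.degree b = G.degree c) →
    (∀ v : V, D ≤ G.degree v) →
    (∀ (v : V) (p : G.Walk v v), p.IsCycle → p.length ≠ 4) →
    (∀ v : V, (d - 3) * Nat.log 2 (Nat.log 2 (G.degree v)) ≤ r) →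
    ∃ S : Finset V, S.Nonempty ∧
      (∀ v ∈ S, d < (S.filter (fun w => G.Adj v w)).card) ∧
      ∀ (v : V) (p : G.Walk v v), p.IsCycle → (∀ w ∈ p.support, w ∈ S) → p.length ≠ 6 := by
  intro d
  refine ⟨32 * (d - 3 + 4) ^ 2 * (d - 3 + 4) ^ 5 * 2 ^ 2 ^ 5, ?_⟩
  intro V _ _ _ G _ A r f h1 h2 h3 h4 h5 h6
  obtain ⟨S, hS, hdeg, hcyc⟩ :=
    Pool.Agent.Lib.MP_59be9f_co.main_aux (d - 3) V G A r f h1 h2 h3 h4 h5 h6
  exact ⟨S, hS, fun v hv => lt_of_le_of_lt (by omega) (hdeg v hv), hcyc⟩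

end Pool.Agent.Results.MP_59be9f_co.LogLogClasses
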