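import Mathlib
import Pool.Agent.Lib.MP_59be9f_co.TriOrb

set_option autoImplicit false

namespace Pool.Agent.Results.MP_59be9f_co.NormalizingStabilizers

/-- Arbitrary groups of symmetries whose stabilizers normalize each other. (1) Local form: `a` in
`A` has neighbours `b 0, ..., b (d + 1)` whose stabilizers move `a` to at least `D` places, and the
stabilizer of `b i` normalizes the stabilizer of `b j` for `i < j`. (2) Its consequence in the form
of S08915: at most `t` orbits on `A`, minimum degree at least `C * t`, and the stabilizer of `b`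
normalizes the stabilizer of `c` whenever the class of `b` comes before the class of `c`. -/
theorem result :
  (∀ d k : ℕ, ∃ D : ℕ, ∀ (V : Type) [Fintype V] [DecidableEq V]
    (G : SimpleGraph V) [DecidableRel G.Adj] (A : Finset V) (r : ℕ) (f : V → Fin r),
    (∀ u v : V, G.Adj u v → (u ∈ A ↔ v ∉ A)) →
    (∀ a ∈ A, ∀ i : Fin r, ∃! b : V, b ∉ A ∧ f b = i ∧ G.Adj a b) →
    (∀ (v : V) (p : G.Walk v v), p.IsCycle → p.length ≠ 4) →
    ∀ (Γ : Type) [Group Γ] [MulAction Γ V],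
    (∀ (g : Γ) (u v : V), G.Adj u v → G.Adj (g • u) (g • v)) →
    (∀ (g : Γ) (v : V), v ∉ A → g • v ∉ A ∧ f (g • v) = f v) →
    ∀ a ∈ A, ∀ b : Fin (d + 2) → V, Function.Injective b → (∀ i, G.Adj a (b i)) →
    (∀ i j, i < j → ∀ g h : Γ, g • b i = b i → h • b j = b j → (g * h * g⁻¹) • b j = b j) →
    (∀ i, D ≤ {v : V | ∃ g : Γ, g • b i = b i ∧ g • a = v}.ncard) →
    ∃ S : Finset V, S.Nonempty ∧
      (∀ v ∈ S, d < (S.filter (fun w => G.Adj v w)).card) ∧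
      ∀ (v : V) (p : G.Walk v v), p.IsCycle → (∀ w ∈ p.support, w ∈ S) → k < p.length) ∧
  (∀ d k : ℕ, ∃ C : ℕ, ∀ (t : ℕ) (V : Type) [Fintype V] [DecidableEq V] [Nonempty V]
    (G : SimpleGraph V) [DecidableRel G.Adj] (A : Finset V) (r : ℕ) (f : V → Fin r),
    1 ≤ t →
    (∀ u v : V, G.Adj u v → (u ∈ A ↔ v ∉ A)) →
    (∀ a ∈ A, ∀ i : Fin r, ∃! b : V, b ∉ A ∧ f b = i ∧ G.Adj a b) →
    (∀ b c : V, b ∉ A → c ∉ A → f b = f c → G.degree b = G.degree c) →
    (∀ v : V, C * t ≤ G.degree v) →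
    (∀ (v : V) (p : G.Walk v v), p.IsCycle → p.length ≠ 4) →
    ∀ (Γ : Type) [Group Γ] [MulAction Γ V],
    (∀ (g : Γ) (u v : V), G.Adj u v → G.Adj (g • u) (g • v)) →
    (∀ (g : Γ) (v : V), v ∉ A → g • v ∉ A ∧ f (g • v) = f v) →
    (∀ b c : V, b ∉ A → c ∉ A → f b < f c → ∀ g h : Γ, g • b = b → h • c = c →
      (g * h * g⁻¹) • c = c) →
    ∀ T : Finset V, T.card ≤ t → (∀ a ∈ A, ∃ a₀ ∈ T, ∃ g : Γ, g • a₀ = a) →
    ∃ S : Finset V, S.Nonempty ∧
      (∀ v ∈ S, d < (S.filter (fun w => G.Adj v w)).card) ∧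
      ∀ (v : V) (p : G.Walk v v), p.IsCycle → (∀ w ∈ p.support, w ∈ S) → k < p.length) := by
  refine ⟨fun d k => ?_, fun d k => ?_⟩
  · obtain ⟨D, h⟩ := Pool.Agent.Lib.MP_59be9f_co.Sym.tri_local d k
    refine ⟨D, ?_⟩
    intro V _ _ G _ A r f hbip hnb hC4 Γ _ _ hadj hcls a ha b hb hab hnorm horb
    exact h V G A r f hbip hnb hC4 Γ hadj hcls a ha b hb hab hnorm horb
  · obtain ⟨C, h⟩ := Pool.Agent.Lib.MP_59be9f_co.Sym.tri_orbits d k
    refine ⟨C, ?_⟩
    intro t V _ _ _ G _ A r f ht hbip hnb _ hmin hC4 Γ _ _ hadj hcls hnorm T hTt hT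
    exact h t V G A r f ht hbip hnb hmin hC4 Γ hadj hcls hnorm T hTt hT

end Pool.Agent.Results.MP_59be9f_co.NormalizingStabilizers
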