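import Mathlib
import Pool.Agent.Lib.MP_59be9f_co.Girth

set_option autoImplicit false

namespace Pool.Agent.Results.MP_59be9f_co.PolynomialWindow

/-- For all `d` and `g` there is `D` such that every finite `C4`-free strongly
neighbourhood-regular graph with minimum degree at least `D` has a nonempty induced subgraph with
minimum degree above `d` and without cycles of length at most `g`, provided that for some `x` and
`k` at least `D * (k + 1)` of its classes have degrees in the interval `[x, x ^ (2 ^ k)]`. -/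
theorem result :
  ∀ d g : ℕ, ∃ D : ℕ, ∀ (V : Type) [Fintype V] [DecidableEq V] [Nonempty V]
    (G : SimpleGraph V) [DecidableRel G.Adj] (A : Finset V) (r : ℕ) (f : V → Fin r),
    (∀ u v : V, G.Adj u v → (u ∈ A ↔ v ∉ A)) →
    (∀ a ∈ A, ∀ i : Fin r, ∃! b : V, b ∉ A ∧ f b = i ∧ G.Adj a b) →
    (∀ b c : V, b ∉ A → c ∉ A → f b = f c → G.degree b = G.degree c) →
    (∀ v : V, D ≤ G.degree v) →
    (∀ (v : V) (p : G.Walk v v), p.IsCycle → p.length ≠ 4) →
    (∃ x k : ℕ, D * (k + 1) ≤ {i : Fin r | ∃ b : V, b ∉ A ∧ f b = i ∧ x ≤ G.degree b ∧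
        G.degree b ≤ x ^ 2 ^ k}.ncard) →
    ∃ S : Finset V, S.Nonempty ∧
      (∀ v ∈ S, d < (S.filter (fun w => G.Adj v w)).card) ∧
      ∀ (v : V) (p : G.Walk v v), p.IsCycle → (∀ w ∈ p.support, w ∈ S) → g < p.length := by
  classical
  intro d g
  obtain ⟨J, hJ⟩ := Pool.Agent.Lib.MP_59be9f_co.exists_J 2 (g + 1) (by omega)
  refine ⟨((g + 1) * (2 * (d + 1) * (d + 1) ^ 2) ^ (g + 1 + 2)) ^ 2 + 2 * (d + 1) * (d + 1) +
    (J * (d + 1) + 1), ?_⟩
  rintro V _ _ _ G _ A r f h1 h2 h3 h4 h5 ⟨x, k, hx⟩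
  rw [Set.ncard_eq_toFinset_card', Set.toFinset_ofPred] at hx
  have hJk : 2 ^ k * (2 * (g + 1)) ^ (J * (k + 1)) < (2 * (g + 1) + 1) ^ (J * (k + 1)) := by
    calc 2 ^ k * (2 * (g + 1)) ^ (J * (k + 1))
        ≤ 2 ^ (k + 1) * (2 * (g + 1)) ^ (J * (k + 1)) :=
          Nat.mul_le_mul_right _ (Nat.pow_le_pow_right (by norm_num) (by omega))
      _ = (2 * (2 * (g + 1)) ^ J) ^ (k + 1) := by rw [pow_mul, ← mul_pow]
      _ < ((2 * (g + 1) + 1) ^ J) ^ (k + 1) := Nat.pow_lt_pow_left hJ (by omega)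
      _ = (2 * (g + 1) + 1) ^ (J * (k + 1)) := (pow_mul _ _ _).symm
  have hcard : J * (k + 1) * (d + 1) + 1 ≤ (Finset.univ.filter (fun i : Fin r =>
      ∃ b : V, b ∉ A ∧ f b = i ∧ x ≤ G.degree b ∧ G.degree b ≤ x ^ 2 ^ k)).card := by
    refine le_trans ?_ hx
    calc J * (k + 1) * (d + 1) + 1 ≤ (J * (d + 1) + 1) * (k + 1) := by
          have e1 : J * (k + 1) * (d + 1) = J * (d + 1) * (k + 1) := by ring
          have e2 : (J * (d + 1) + 1) * (k + 1) = J * (d + 1) * (k + 1) + (k + 1) := by ring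
          omega
      _ ≤ _ := Nat.mul_le_mul_right _ (Nat.le_add_left _ _)
  obtain ⟨S, hS, hdeg, hcyc⟩ :=
    Pool.Agent.Lib.MP_59be9f_co.main_girth (d + 1) (g + 1) (J * (k + 1)) (2 ^ k) (by omega)
      (by omega) hJk V G A r f h1 h2 h3
      (fun v => le_trans (Nat.le_add_right _ _) (h4 v)) h5 x (by convert hcard)
  refine ⟨S, hS, fun v hv => lt_of_lt_of_le (Nat.lt_succ_self d) (hdeg v hv), ?_⟩
  intro v p hp hsup
  have := hcyc v p hp hsup
  omega

end Pool.Agent.Results.MP_59be9f_co.PolynomialWindow
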