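import Mathlib
import Pool.Agent.Lib.MP_59be9f_co.Orb

set_option autoImplicit false

namespace Pool.Agent.Results.MP_59be9f_co.SolvableSymmetries

/-- Symmetric graphs. (1) Local form: a group of derived length at most `l` acts by automorphisms
that keep the side `V \ A` and each class, and some vertex `a` of `A` has at least `C ^ (l + 1)`
neighbours `b` whose stabilizers move `a` to at least `C ^ (l + 1)` places; then there is the
induced subgraph asked for in Q1, even without cycles of length at most `k`. (2) Its consequence in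
the form of S08915: the group has at most `t` orbits on `A` and the minimum degree is at least
`C ^ (l + 1) * t`. -/
theorem result :
  (∀ d k : ℕ, ∃ C : ℕ, ∀ (l : ℕ) (V : Type) [Fintype V] [DecidableEq V]
    (G : SimpleGraph V) [DecidableRel G.Adj] (A : Finset V) (r : ℕ) (f : V → Fin r),
    (∀ u v : V, G.Adj u v → (u ∈ A ↔ v ∉ A)) →
    (∀ a ∈ A, ∀ i : Fin r, ∃! b : V, b ∉ A ∧ f b = i ∧ G.Adj a b) →
    (∀ (v : V) (p : G.Walk v v), p.IsCycle → p.length ≠ 4) →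
    ∀ (Γ : Type) [Group Γ] [MulAction Γ V],
    derivedSeries Γ l = ⊥ →
    (∀ (g : Γ) (u v : V), G.Adj u v → G.Adj (g • u) (g • v)) →
    (∀ (g : Γ) (v : V), v ∉ A → g • v ∉ A ∧ f (g • v) = f v) →
    ∀ a ∈ A, ∀ B : Finset V, (∀ b ∈ B, G.Adj a b) → C ^ (l + 1) ≤ B.card →
    (∀ b ∈ B, C ^ (l + 1) ≤ {v : V | ∃ g : Γ, g • b = b ∧ g • a = v}.ncard) →
    ∃ S : Finset V, S.Nonempty ∧
      (∀ v ∈ S, d < (S.filter (fun w => G.Adj v w)).card) ∧
      ∀ (v : V) (p : G.Walk v v), p.IsCycle → (∀ w ∈ p.support, w ∈ S) → k < p.length) ∧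
  (∀ d k : ℕ, ∃ C : ℕ, ∀ (l t : ℕ) (V : Type) [Fintype V] [DecidableEq V] [Nonempty V]
    (G : SimpleGraph V) [DecidableRel G.Adj] (A : Finset V) (r : ℕ) (f : V → Fin r),
    1 ≤ t →
    (∀ u v : V, G.Adj u v → (u ∈ A ↔ v ∉ A)) →
    (∀ a ∈ A, ∀ i : Fin r, ∃! b : V, b ∉ A ∧ f b = i ∧ G.Adj a b) →
    (∀ b c : V, b ∉ A → c ∉ A → f b = f c → G.degree b = G.degree c) →
    (∀ v : V, C ^ (l + 1) * t ≤ G.degree v) →
    (∀ (v : V) (p : G.Walk v v), p.IsCycle → p.length ≠ 4) →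
    ∀ (Γ : Type) [Group Γ] [MulAction Γ V],
    derivedSeries Γ l = ⊥ →
    (∀ (g : Γ) (u v : V), G.Adj u v → G.Adj (g • u) (g • v)) →
    (∀ (g : Γ) (v : V), v ∉ A → g • v ∉ A ∧ f (g • v) = f v) →
    ∀ T : Finset V, T.card ≤ t → (∀ a ∈ A, ∃ a₀ ∈ T, ∃ g : Γ, g • a₀ = a) →
    ∃ S : Finset V, S.Nonempty ∧
      (∀ v ∈ S, d < (S.filter (fun w => G.Adj v w)).card) ∧
      ∀ (v : V) (p : G.Walk v v), p.IsCycle → (∀ w ∈ p.support, w ∈ S) → k < p.length) := by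
  refine ⟨fun d k => ?_, fun d k => ?_⟩
  · obtain ⟨C, _, h⟩ := Pool.Agent.Lib.MP_59be9f_co.Sym.local_solvable d k
    refine ⟨C, ?_⟩
    intro l V _ _ G _ A r f hbip hnb hC4 Γ _ _ hder hadj hcls a ha B hB hBc horb
    exact h l V G A r f hbip hnb hC4 Γ hder hadj hcls a ha B hB hBc horb
  · obtain ⟨C, h⟩ := Pool.Agent.Lib.MP_59be9f_co.Sym.orbits_solvable d k
    refine ⟨C, ?_⟩
    intro l t V _ _ _ G _ A r f ht hbip hnb _ hmin hC4 Γ _ _ hder hadj hcls T hTt hT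
    exact h l t V G A r f ht hbip hnb hmin hC4 Γ hder hadj hcls T hTt hT

end Pool.Agent.Results.MP_59be9f_co.SolvableSymmetries
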